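import Pool.Agent.TH195.FR.T

/-! MP_f298ee_co: the polynomial bound (AP) `|V| ≤ G (R+1)^2 l^R`. -/

namespace Pool.Agent.TH195.FR

open Finset Pool.Agent.TH780.FR

variable {c : ℕ → ℕ → ℕ} {V U B D : Finset ℕ} {x y z l R : ℕ} {I J : Finset ℕ} {lam : ℕ → ℕ → ℕ}

/-- initial segments of a finite set of numbers -/
theorem exists_initial (Z : Finset ℕ) (k : ℕ) (hk : k ≤ Z.card) :
    ∃ A ⊆ Z, A.card = k ∧ ∀ x ∈ A, ∀ y ∈ Z, y ∉ A → x < y := by
  induction k with
  | zero => exact ⟨∅, by simp, by simp, by simp⟩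
  | succ k ih =>
    obtain ⟨A, h1, h2, h3⟩ := ih (by omega)
    have h4 : (Z \ A).Nonempty := by
      rw [← Finset.card_pos, Finset.card_sdiff_of_subset h1]
      omega
    have h5 := Finset.min'_mem _ h4
    set m := (Z \ A).min' h4 with hm
    rw [Finset.mem_sdiff] at h5
    refine ⟨insert m A, ?_, ?_, ?_⟩
    · intro x hx
      rw [Finset.mem_insert] at hx
      rcases hx with rfl | hx
      · exact h5.1
      · exact h1 hx
    · rw [Finset.card_insert_of_notMem h5.2, h2]
    · intro x hx y hy hyA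
      rw [Finset.mem_insert, not_or] at hyA
      rw [Finset.mem_insert] at hx
      rcases hx with rfl | hx
      · have h6 : m ≤ y := Finset.min'_le _ _ (by rw [Finset.mem_sdiff]; exact ⟨hy, hyA.2⟩)
        omega
      · exact h3 x hx y hy hyA.2

open Classical in
/-- double counting -/
theorem exists_few (A W : Finset ℕ) (bad : ℕ → ℕ → Prop) (b : ℕ)
    (h : ∀ w ∈ W, (A.filter (fun v => bad v w)).card ≤ b) (hA : A.Nonempty) :
    ∃ v ∈ A, (W.filter (fun w => bad v w)).card * A.card ≤ b * W.card := by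
  by_contra hcon
  push Not at hcon
  have h1 : ∑ v ∈ A, (W.filter (fun w => bad v w)).card = ∑ w ∈ W, (A.filter (fun v => bad v w)).card := by
    have := Finset.sum_card_bipartiteAbove_eq_sum_card_bipartiteBelow (s := A) (t := W) bad
    simpa [Finset.bipartiteAbove, Finset.bipartiteBelow] using this
  have h2 : ∑ w ∈ W, (A.filter (fun v => bad v w)).card ≤ W.card * b := by
    calc ∑ w ∈ W, (A.filter (fun v => bad v w)).card ≤ ∑ w ∈ W, b := Finset.sum_le_sum h
      _ = W.card * b := by simp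
  have h3 : ∑ v ∈ A, b * W.card < ∑ v ∈ A, (W.filter (fun w => bad v w)).card * A.card :=
    Finset.sum_lt_sum_of_nonempty hA hcon
  rw [Finset.sum_const, smul_eq_mul, ← Finset.sum_mul, h1] at h3
  have h4 : (∑ w ∈ W, (A.filter (fun v => bad v w)).card) * A.card ≤ (W.card * b) * A.card :=
    Nat.mul_le_mul_right _ h2
  have h5 : A.card * (b * W.card) = (W.card * b) * A.card := by ring
  omega

/-- constants of the crude bound -/
def Cr : ℕ → ℕ
  | 0 => 1
  | R + 1 => (R + 3) * Cr R

theorem Cr_pos (R : ℕ) : 0 < Cr R := by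
  induction R with
  | zero => simp [Cr]
  | succ R ih => simp only [Cr]; positivity

theorem card_le_one_of_RB (h : RB c V 0) : V.card ≤ 1 := by
  rw [Finset.card_le_one]
  intro a ha b hb
  by_contra hne
  rcases Nat.lt_or_gt_of_ne hne with h1 | h1
  · have := h _ _ _ (P.single ha hb h1)
    simp at this
  · have := h _ _ _ (P.single hb ha h1)
    simp at this

/-- levels of the out-neighbours of a vertex have smaller rainbow number -/
theorem RB_cls_Nb (hL : Lev c V l lam) (hV : RB c V (R + 1)) (hx : x ∈ V) (a i : ℕ) :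
    RB c (cls lam (Nb c V x a) a i) R := by
  have hs : Nb c V x a ⊆ V := Finset.filter_subset _ _
  intro p q J hp
  have h1 : a ∉ J := by
    have := hp.disj_of_free (cls_free (hL.sub hs) a i)
    rwa [Finset.disjoint_singleton_right] at this
  obtain ⟨_, h2, h3⟩ := mem_Nb.mp (cls_sub hp.left_mem)
  have h4 := hV _ _ _ (P.cons hx h2 (hp.mono (cls_sub.trans hs)) (by rw [h3]; exact h1))
  rw [Finset.card_insert_of_notMem (by rw [h3]; exact h1)] at h4
  omega

theorem crude (hl : 0 < l) (R : ℕ) : ∀ V : Finset ℕ, Lev c V l lam → RB c V R →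
    V.card ≤ Cr R * l ^ R := by
  induction R with
  | zero =>
    intro V _ h
    simpa [Cr] using card_le_one_of_RB h
  | succ R ih =>
    intro V hL hV
    have h0 : 0 < l ^ R := by positivity
    have h1 := ih (V \ En c V (R + 1)) (hL.sub Finset.sdiff_subset) (RB_diff_En hV)
    have hC := Cr_pos R
    rcases (En c V (R + 1)).eq_empty_or_nonempty with hE | hE
    · rw [hE, Finset.sdiff_empty] at h1
      calc V.card ≤ Cr R * l ^ R := h1
        _ ≤ (R + 3) * Cr R * l ^ (R + 1) := by
          rw [pow_succ]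
          have : Cr R * l ^ R * 1 ≤ Cr R * l ^ R * ((R + 3) * l) := by
            apply Nat.mul_le_mul_left
            nlinarith
          calc Cr R * l ^ R = Cr R * l ^ R * 1 := by ring
            _ ≤ Cr R * l ^ R * ((R + 3) * l) := this
            _ = (R + 3) * Cr R * (l ^ R * l) := by ring
    · have hm := Finset.min'_mem _ hE
      set v := (En c V (R + 1)).min' hE with hv
      obtain ⟨hvV, y, I, hp, hI⟩ := mem_En.mp hm
      have hsub : V ⊆ (V \ En c V (R + 1)) ∪ ({v} ∪ I.biUnion (fun a => Nb c V v a)) := by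
        intro w hw
        rcases Nat.lt_trichotomy w v with h2 | h2 | h2
        · have h3 : w ∉ En c V (R + 1) := by
            intro h4
            have := Finset.min'_le _ _ h4
            omega
          simp [hw, h3]
        · simp [h2]
        · have h3 := out_of_end hV hp hI hw h2
          simp only [Finset.mem_union, Finset.mem_biUnion]
          exact Or.inr (Or.inr ⟨_, h3, mem_Nb.mpr ⟨hw, h2, rfl⟩⟩)
      have h2 : ∀ a, (Nb c V v a).card ≤ l * (Cr R * l ^ R) := by
        intro a
        have hs : Nb c V v a ⊆ V := Finset.filter_subset _ _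
        exact card_le_of_cls (hL.sub hs) a (fun i => ih _ (hL.sub (cls_sub.trans hs))
          (RB_cls_Nb hL hV hvV a i))
      have h3 : (I.biUnion (fun a => Nb c V v a)).card ≤ (R + 1) * (l * (Cr R * l ^ R)) := by
        calc (I.biUnion (fun a => Nb c V v a)).card ≤ ∑ a ∈ I, (Nb c V v a).card :=
              Finset.card_biUnion_le
          _ ≤ ∑ a ∈ I, l * (Cr R * l ^ R) := Finset.sum_le_sum (fun a _ => h2 a)
          _ = (R + 1) * (l * (Cr R * l ^ R)) := by simp [hI]
      have h4 : V.card ≤ (V \ En c V (R + 1)).card + (1 + (I.biUnion (fun a => Nb c V v a)).card) := by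
        calc V.card ≤ _ := Finset.card_le_card hsub
          _ ≤ (V \ En c V (R + 1)).card + ({v} ∪ I.biUnion (fun a => Nb c V v a)).card :=
              Finset.card_union_le _ _
          _ ≤ _ := by
              have := Finset.card_union_le {v} (I.biUnion (fun a => Nb c V v a))
              simp only [Finset.card_singleton] at this
              omega
      have h5 : Cr R * l ^ R ≤ l * (Cr R * l ^ R) := Nat.le_mul_of_pos_left _ hl
      have h6 : 1 ≤ l * (Cr R * l ^ R) := Nat.one_le_iff_ne_zero.mpr (by positivity)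
      calc V.card ≤ l * (Cr R * l ^ R) + (l * (Cr R * l ^ R) + (R + 1) * (l * (Cr R * l ^ R))) := by
            omega
        _ = (R + 3) * Cr R * l ^ (R + 1) := by ring

theorem Nb_le {v a G s : ℕ} (hL : Lev c V l lam) (hV : RB c V R)
    (hAP : ∀ j < R, ∀ U ⊆ V, RB c U j → U.card ≤ G * (j + 1) ^ 2 * l ^ j)
    (hp : P c V y v I) (ha : a ∉ I) (hI : R ≤ I.card + s) :
    (Nb c V v a).card ≤ G * s ^ 2 * l ^ R := by
  rcases (Nb c V v a).eq_empty_or_nonempty with hE | ⟨w, hw⟩
  · rw [hE]; simp
  · obtain ⟨h2, h3, h4⟩ := mem_Nb.mp hw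
    have h5 := hV _ _ _ (P.snoc hp h3 h2 (by rw [h4]; exact ha))
    rw [Finset.card_insert_of_notMem (by rw [h4]; exact ha)] at h5
    have h6 := Nb_card hL hV hp ha (fun U hU hRB => hAP (R - (I.card + 1)) (by omega) U hU hRB)
    have h7 : l ^ (I.card + 1) * l ^ (R - (I.card + 1)) = l ^ R := by
      rw [← pow_add]; congr 1; omega
    calc (Nb c V v a).card ≤ l ^ (I.card + 1) * (G * (R - (I.card + 1) + 1) ^ 2 *
          l ^ (R - (I.card + 1))) := h6
      _ = G * (R - (I.card + 1) + 1) ^ 2 * (l ^ (I.card + 1) * l ^ (R - (I.card + 1))) := by ring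
      _ = G * (R - (I.card + 1) + 1) ^ 2 * l ^ R := by rw [h7]
      _ ≤ G * s ^ 2 * l ^ R := by
        apply Nat.mul_le_mul_right
        apply Nat.mul_le_mul_left
        apply Nat.pow_le_pow_left
        omega

theorem Nm_le {w a G s : ℕ} (hL : Lev c V l lam) (hV : RB c V R)
    (hAP : ∀ j < R, ∀ U ⊆ V, RB c U j → U.card ≤ G * (j + 1) ^ 2 * l ^ j)
    (hp : P c V w y I) (ha : a ∉ I) (hI : R ≤ I.card + s) :
    (Nm c V w a).card ≤ G * s ^ 2 * l ^ R := by
  rcases (Nm c V w a).eq_empty_or_nonempty with hE | ⟨v, hv⟩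
  · rw [hE]; simp
  · obtain ⟨h2, h3, h4⟩ := mem_Nm.mp hv
    have h5 := hV _ _ _ (P.cons h2 h3 hp (by rw [h4]; exact ha))
    rw [Finset.card_insert_of_notMem (by rw [h4]; exact ha)] at h5
    have h6 := Nm_card hL hV hp ha (fun U hU hRB => hAP (R - (I.card + 1)) (by omega) U hU hRB)
    have h7 : l ^ (I.card + 1) * l ^ (R - (I.card + 1)) = l ^ R := by
      rw [← pow_add]; congr 1; omega
    calc (Nm c V w a).card ≤ l ^ (I.card + 1) * (G * (R - (I.card + 1) + 1) ^ 2 *
          l ^ (R - (I.card + 1))) := h6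
      _ = G * (R - (I.card + 1) + 1) ^ 2 * (l ^ (I.card + 1) * l ^ (R - (I.card + 1))) := by ring
      _ = G * (R - (I.card + 1) + 1) ^ 2 * l ^ R := by rw [h7]
      _ ≤ G * s ^ 2 * l ^ R := by
        apply Nat.mul_le_mul_right
        apply Nat.mul_le_mul_left
        apply Nat.pow_le_pow_left
        omega

/-- for a start `w` of an `R`-path few `v < w` are without long paths to `v` avoiding `c v w` -/
theorem bad_pairs_in {w s : ℕ} {A : Finset ℕ} (hL : Lev c V l lam) (hV : RB c V R)
    (hR : Rec c V l R) (hl : 0 < l) (hs : s < R) (hw : w ∈ St c V R) (hA : A ⊆ V)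
    (hAw : ∀ v ∈ A, v < w) :
    (A.filter (fun v => v ∈ badE c V (c v w) (R - s))).card * l ^ s ≤ R * V.card := by
  have h1 : A.filter (fun v => v ∈ badE c V (c v w) (R - s)) ⊆
      (InC c V w).biUnion (fun a => badE c V a (R - s)) := by
    intro v hv
    rw [Finset.mem_filter] at hv
    rw [Finset.mem_biUnion]
    exact ⟨_, mem_InC.mpr ⟨v, hA hv.1, hAw v hv.1, rfl⟩, hv.2⟩
  calc (A.filter (fun v => v ∈ badE c V (c v w) (R - s))).card * l ^ s
      ≤ ((InC c V w).biUnion (fun a => badE c V a (R - s))).card * l ^ s :=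
        Nat.mul_le_mul_right _ (Finset.card_le_card h1)
    _ ≤ (∑ a ∈ InC c V w, (badE c V a (R - s)).card) * l ^ s :=
        Nat.mul_le_mul_right _ Finset.card_biUnion_le
    _ = ∑ a ∈ InC c V w, (badE c V a (R - s)).card * l ^ s := by rw [Finset.sum_mul]
    _ ≤ ∑ a ∈ InC c V w, V.card := Finset.sum_le_sum (fun a _ => T_E hL hR hl a hs)
    _ = (InC c V w).card * V.card := by simp
    _ ≤ R * V.card := Nat.mul_le_mul_right _ (inC_card hV hw)

theorem bad_pairs_out {v s : ℕ} {A : Finset ℕ} (hL : Lev c V l lam) (hV : RB c V R)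
    (hR : Rec c V l R) (hl : 0 < l) (hs : s < R) (hv : v ∈ En c V R) (hA : A ⊆ V)
    (hAv : ∀ w ∈ A, v < w) :
    (A.filter (fun w => w ∈ badS c V (c v w) (R - s))).card * l ^ s ≤ R * V.card := by
  have h1 : A.filter (fun w => w ∈ badS c V (c v w) (R - s)) ⊆
      (OutC c V v).biUnion (fun a => badS c V a (R - s)) := by
    intro w hw
    rw [Finset.mem_filter] at hw
    rw [Finset.mem_biUnion]
    exact ⟨_, mem_OutC.mpr ⟨w, hA hw.1, hAv w hw.1, rfl⟩, hw.2⟩
  calc (A.filter (fun w => w ∈ badS c V (c v w) (R - s))).card * l ^ s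
      ≤ ((OutC c V v).biUnion (fun a => badS c V a (R - s))).card * l ^ s :=
        Nat.mul_le_mul_right _ (Finset.card_le_card h1)
    _ ≤ (∑ a ∈ OutC c V v, (badS c V a (R - s)).card) * l ^ s :=
        Nat.mul_le_mul_right _ Finset.card_biUnion_le
    _ = ∑ a ∈ OutC c V v, (badS c V a (R - s)).card * l ^ s := by rw [Finset.sum_mul]
    _ ≤ ∑ a ∈ OutC c V v, V.card := Finset.sum_le_sum (fun a _ => T_S hL hR hl a hs)
    _ = (OutC c V v).card * V.card := by simp
    _ ≤ R * V.card := Nat.mul_le_mul_right _ (outC_card hV hv)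

/-- the ends and starts of `R`-paths form at least a third of a record set -/
theorem card_Z (hV : RB c V R) (hR : Rec c V l R) (h0 : 0 < R) (hl : 3 ≤ l) :
    V.card ≤ 3 * (En c V R ∩ St c V R).card := by
  have h1 := card_diff_En hV hR h0
  have h2 := card_diff_St hV hR h0
  have h3 : V.card ≤ (En c V R ∩ St c V R).card + ((V \ En c V R).card + (V \ St c V R).card) := by
    have : V ⊆ (En c V R ∩ St c V R) ∪ ((V \ En c V R) ∪ (V \ St c V R)) := by
      intro x hx
      by_cases h1 : x ∈ En c V R <;> by_cases h2 : x ∈ St c V R <;> simp [hx, h1, h2]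
    calc V.card ≤ _ := Finset.card_le_card this
      _ ≤ _ := Finset.card_union_le _ _
      _ ≤ _ := by
        have := Finset.card_union_le (V \ En c V R) (V \ St c V R)
        omega
  have h4 : (V \ En c V R).card * 3 ≤ V.card := (Nat.mul_le_mul_left _ hl).trans h1
  have h5 : (V \ St c V R).card * 3 ≤ V.card := (Nat.mul_le_mul_left _ hl).trans h2
  omega

theorem pow3_big {s : ℕ} (hs : 13 ≤ s) : 1600 * (s + 1) ^ 2 ≤ 3 ^ (s - 1) := by
  obtain ⟨k, rfl⟩ : ∃ k, s = k + 13 := ⟨s - 13, by omega⟩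
  clear hs
  have : ∀ k : ℕ, 1600 * (k + 14) ^ 2 ≤ 3 ^ (k + 12) := by
    intro k
    induction k with
    | zero => norm_num
    | succ k ih =>
      have h1 : 3 ^ (k + 1 + 12) = 3 * 3 ^ (k + 12) := by ring
      have h2 : (k + 1 + 14) ^ 2 ≤ 3 * (k + 14) ^ 2 := by nlinarith [Nat.zero_le (k * k), Nat.zero_le k]
      rw [h1]
      calc 1600 * (k + 1 + 14) ^ 2 ≤ 1600 * (3 * (k + 14) ^ 2) := Nat.mul_le_mul_left _ h2
        _ = 3 * (1600 * (k + 14) ^ 2) := by ring
        _ ≤ 3 * 3 ^ (k + 12) := Nat.mul_le_mul_left _ ih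
  simpa using this k

theorem clog_small {l R : ℕ} (hl : 3 ≤ l) (hR : 7000 ≤ R) :
    40 * (Nat.clog l (40 * R) + 1) ^ 2 ≤ R := by
  set s := Nat.clog l (40 * R) with hs
  by_contra hcon
  push Not at hcon
  have h1 : l ^ (s - 1) < 40 * R := by
    have := Nat.pow_pred_clog_lt_self (b := l) (by omega : 1 < l) (x := 40 * R) (by omega)
    simpa [hs] using this
  have h2 : 3 ^ (s - 1) ≤ l ^ (s - 1) := Nat.pow_le_pow_left hl _
  have h3 : 3 ^ (s - 1) < 1600 * (s + 1) ^ 2 := by nlinarith
  have h4 : s < 13 := by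
    by_contra h5
    have := pow3_big (s := s) (by omega)
    omega
  have h5 : (s + 1) ^ 2 ≤ 13 ^ 2 := Nat.pow_le_pow_left (by omega) 2
  omega

theorem AP_step {G : ℕ} (hG : 0 < G) (hl : 3 ≤ l) (h7 : 7000 ≤ R) (hL : Lev c V l lam)
    (hV : RB c V R)
    (hAP : ∀ j < R, ∀ U ⊆ V, RB c U j → U.card ≤ G * (j + 1) ^ 2 * l ^ j) :
    V.card ≤ G * (R + 1) ^ 2 * l ^ R := by
  classical
  by_contra hcon
  push Not at hcon
  have hlR : 0 < l ^ R := by positivity
  have hn : 7000 ≤ V.card := by
    have : 7000 * 1 ≤ G * (R + 1) ^ 2 * l ^ R := by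
      apply Nat.mul_le_mul _ hlR
      nlinarith
    omega
  -- the record property
  have hR : Rec c V l R := by
    intro U hU j hj hRB
    rcases Nat.lt_or_ge j R with h1 | h1
    · have h2 := hAP j h1 U hU hRB
      calc U.card * l ^ (R - j) ≤ G * (j + 1) ^ 2 * l ^ j * l ^ (R - j) :=
            Nat.mul_le_mul_right _ h2
        _ = G * (j + 1) ^ 2 * l ^ R := by
            rw [mul_assoc, ← pow_add]
            congr 2
            omega
        _ ≤ G * (R + 1) ^ 2 * l ^ R := by
            apply Nat.mul_le_mul_right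
            apply Nat.mul_le_mul_left
            apply Nat.pow_le_pow_left
            omega
        _ ≤ V.card := hcon.le
    · have h2 : R - j = 0 := by omega
      rw [h2]
      simpa using Finset.card_le_card hU
  set s := Nat.clog l (40 * R) with hs
  have hs1 : 40 * (s + 1) ^ 2 ≤ R := clog_small hl h7
  have hs2 : 40 * R ≤ l ^ s := Nat.le_pow_clog (by omega) _
  have hs3 : s < R := by nlinarith
  have hZ := card_Z hV hR (by omega) hl
  set Z := En c V R ∩ St c V R with hZdef
  obtain ⟨A, hA1, hA2, hA3⟩ := exists_initial Z (Z.card / 2) (by omega)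
  have hAV : A ⊆ V := hA1.trans (Finset.inter_subset_left.trans En_sub)
  set W := Z \ A with hW
  have hWc : W.card = Z.card - Z.card / 2 := by
    rw [hW, Finset.card_sdiff_of_subset hA1, hA2]
  have hAW : ∀ v ∈ A, ∀ w ∈ W, v < w := by
    intro v hv w hw
    rw [hW, Finset.mem_sdiff] at hw
    exact hA3 v hv w hw.1 hw.2
  have hbad : ∀ w ∈ W, (A.filter (fun v => v ∈ badE c V (c v w) (R - s))).card ≤ V.card / 40 := by
    intro w hw
    have hwZ : w ∈ Z := (Finset.mem_sdiff.mp hw).1
    have h1 := bad_pairs_in hL hV hR (by omega) hs3 (Finset.mem_inter.mp hwZ).2 hAV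
      (fun v hv => hAW v hv w hw)
    have h2 : (A.filter (fun v => v ∈ badE c V (c v w) (R - s))).card * 40 * R ≤ V.card * R := by
      calc (A.filter (fun v => v ∈ badE c V (c v w) (R - s))).card * 40 * R
          = (A.filter (fun v => v ∈ badE c V (c v w) (R - s))).card * (40 * R) := by ring
        _ ≤ (A.filter (fun v => v ∈ badE c V (c v w) (R - s))).card * l ^ s :=
            Nat.mul_le_mul_left _ hs2
        _ ≤ R * V.card := h1
        _ = V.card * R := by ring
    have h3 := Nat.le_of_mul_le_mul_right h2 (by omega)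
    omega
  have hAne : A.Nonempty := by
    rw [← Finset.card_pos, hA2]
    omega
  obtain ⟨v, hv, hfew⟩ := exists_few A W (fun v w => v ∈ badE c V (c v w) (R - s)) _
    (by intro w hw; convert hbad w hw) hAne
  have hvZ := hA1 hv
  have hvE := (Finset.mem_inter.mp hvZ).1
  have hvV := hAV hv
  -- the bad w
  have h4b : 4 * (V.card / 40) ≤ A.card := by
    rw [hA2]; omega
  have hfew4 : 4 * (W.filter (fun w => v ∈ badE c V (c v w) (R - s))).card ≤ W.card := by
    have h1 : A.card * (4 * (W.filter (fun w => v ∈ badE c V (c v w) (R - s))).card) ≤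
        A.card * W.card := by
      have h2 : (W.filter (fun w => v ∈ badE c V (c v w) (R - s))).card * A.card ≤
          V.card / 40 * W.card := by convert hfew
      calc A.card * (4 * (W.filter (fun w => v ∈ badE c V (c v w) (R - s))).card)
          = 4 * ((W.filter (fun w => v ∈ badE c V (c v w) (R - s))).card * A.card) := by ring
        _ ≤ 4 * (V.card / 40 * W.card) := Nat.mul_le_mul_left _ h2
        _ = 4 * (V.card / 40) * W.card := by ring
        _ ≤ A.card * W.card := Nat.mul_le_mul_right _ h4b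
    exact Nat.le_of_mul_le_mul_left h1 (Finset.card_pos.mpr hAne)
  set Wg := W.filter (fun w => ¬ v ∈ badE c V (c v w) (R - s)) with hWg
  have hsum : (W.filter (fun w => v ∈ badE c V (c v w) (R - s))).card + Wg.card = W.card := by
    rw [hWg]
    exact Finset.card_filter_add_card_filter_not _
  have hgood : V.card ≤ 8 * Wg.card := by omega
  -- each colour contributes little
  have hsub : Wg ⊆ (OutC c V v).biUnion (fun a => if (v ∈ badE c V a (R - s)) then ∅ else Nb c V v a) := by
    intro w hw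
    rw [hWg, Finset.mem_filter] at hw
    have hwV : w ∈ V := St_sub (Finset.mem_inter.mp (Finset.mem_sdiff.mp hw.1).1).2
    have hvw := hAW v hv w hw.1
    rw [Finset.mem_biUnion]
    refine ⟨c v w, mem_OutC.mpr ⟨w, hwV, hvw, rfl⟩, ?_⟩
    rw [if_neg hw.2]
    exact mem_Nb.mpr ⟨hwV, hvw, rfl⟩
  have hcount : Wg.card ≤ R * (G * s ^ 2 * l ^ R) := by
    calc Wg.card ≤ _ := Finset.card_le_card hsub
      _ ≤ ∑ a ∈ OutC c V v, (if (v ∈ badE c V a (R - s)) then ∅ else Nb c V v a).card :=
          Finset.card_biUnion_le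
      _ ≤ ∑ a ∈ OutC c V v, G * s ^ 2 * l ^ R := by
          apply Finset.sum_le_sum
          intro a _
          split_ifs with h1
          · simp
          · obtain ⟨y, I, hp, ha, hI⟩ := not_mem_badE hvV h1
            exact Nb_le hL hV hAP hp ha (by omega)
      _ = (OutC c V v).card * (G * s ^ 2 * l ^ R) := by simp
      _ ≤ R * (G * s ^ 2 * l ^ R) := Nat.mul_le_mul_right _ (outC_card hV hvE)
  have hfin : 8 * (R * (G * s ^ 2 * l ^ R)) ≤ G * (R + 1) ^ 2 * l ^ R := by
    calc 8 * (R * (G * s ^ 2 * l ^ R)) = G * (R * (8 * s ^ 2)) * l ^ R := by ring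
      _ ≤ G * (R + 1) ^ 2 * l ^ R := by
        apply Nat.mul_le_mul_right
        apply Nat.mul_le_mul_left
        have : 8 * s ^ 2 ≤ R := by nlinarith
        nlinarith
  omega

theorem exists_G : ∃ G : ℕ, 0 < G ∧ ∀ R ≤ 7000, Cr R ≤ G := by
  have : ∀ N : ℕ, ∃ G : ℕ, 0 < G ∧ ∀ R ≤ N, Cr R ≤ G := by
    intro N
    induction N with
    | zero => exact ⟨Cr 0, Cr_pos 0, fun R hR => by rw [Nat.le_zero.mp hR]⟩
    | succ N ih =>
      obtain ⟨G, hG, h⟩ := ih
      refine ⟨G + Cr (N + 1), by omega, ?_⟩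
      intro R hR
      rcases Nat.lt_or_ge N R with h1 | h1
      · have : R = N + 1 := by omega
        subst this
        omega
      · have := h R h1
        omega
  exact this 7000

/-- (AP): the polynomial bound. -/
theorem AP : ∃ G : ℕ, 0 < G ∧ ∀ (c : ℕ → ℕ → ℕ) (l : ℕ) (lam : ℕ → ℕ → ℕ) (R : ℕ) (V : Finset ℕ),
    3 ≤ l → Lev c V l lam → RB c V R → V.card ≤ G * (R + 1) ^ 2 * l ^ R := by
  obtain ⟨G, hG, hCr⟩ := exists_G
  refine ⟨G, hG, ?_⟩
  intro c l lam R
  induction R using Nat.strong_induction_on with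
  | _ R ih =>
    intro V hl hL hV
    rcases Nat.lt_or_ge R 7000 with h1 | h1
    · calc V.card ≤ Cr R * l ^ R := crude (by omega) R V hL hV
        _ ≤ G * l ^ R := Nat.mul_le_mul_right _ (hCr R (by omega))
        _ ≤ G * (R + 1) ^ 2 * l ^ R := by
          apply Nat.mul_le_mul_right
          apply Nat.le_mul_of_pos_right
          positivity
    · exact AP_step hG hl h1 hL hV (fun j hj U hU hRB => ih j hj U hl (hL.sub hU) hRB)

end Pool.Agent.TH195.FR
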