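import Pool.Agent.TH195.FR.J

/-! MP_f298ee_co: J12 `find_X` (C2) of helper780's plan. -/

namespace Pool.Agent.TH780.FR

open Finset Pool.Agent.TH195.FR

variable {c : ℕ → ℕ → ℕ} {V U B D : Finset ℕ} {x y z l R : ℕ} {I J : Finset ℕ} {lam : ℕ → ℕ → ℕ}

theorem badE_zero (a : ℕ) : badE c V a 0 = ∅ := by
  ext x
  rw [mem_badE]
  simp only [Finset.notMem_empty, iff_false, not_and]
  intro hx h
  have := h x ∅ (P.nil hx) (by simp)
  simp at this

theorem badS_zero (a : ℕ) : badS c V a 0 = ∅ := by
  ext x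
  rw [mem_badS]
  simp only [Finset.notMem_empty, iff_false, not_and]
  intro hx h
  have := h x ∅ (P.nil hx) (by simp)
  simp at this

theorem T_E' (hl : 1 ≤ l) (hL : Lev c V l lam) (hR : Rec c V l R) (a s : ℕ) :
    (badE c V a (R - s)).card * l ^ s ≤ V.card := by
  rcases Nat.lt_or_ge s R with h | h
  · exact T_E hL hR hl a h
  · have : R - s = 0 := by omega
    rw [this, badE_zero]
    simp

theorem pairs_in' {w s : ℕ} {A : Finset ℕ} (hl : 1 ≤ l) (hL : Lev c V l lam) (hV : RB c V R)
    (hR : Rec c V l R) (hw : w ∈ Hout c V R) (hA : A ⊆ V)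
    (hAw : ∀ v ∈ A, v < w ∧ v ∈ badE c V (c v w) (R - s)) :
    A.card * l ^ s ≤ R * V.card := by
  classical
  rcases Nat.lt_or_ge s R with h | h
  · have h1 := bad_pairs_in (A := A) hL hV hR hl h (by rwa [Hout_eq] at hw) hA
      (fun v hv => (hAw v hv).1)
    have h2 : A.filter (fun v => v ∈ badE c V (c v w) (R - s)) = A := by
      rw [Finset.filter_eq_self]
      exact fun v hv => (hAw v hv).2
    rwa [h2] at h1
  · have h1 : A = ∅ := by
      rw [Finset.eq_empty_iff_forall_notMem]
      intro v hv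
      have h2 := (hAw v hv).2
      have h3 : R - s = 0 := by omega
      rw [h3, badE_zero] at h2
      simp at h2
    rw [h1]
    simp

theorem pairs_out' {v s : ℕ} {A : Finset ℕ} (hl : 1 ≤ l) (hL : Lev c V l lam) (hV : RB c V R)
    (hR : Rec c V l R) (hv : v ∈ Hin c V R) (hA : A ⊆ V)
    (hAw : ∀ w ∈ A, v < w ∧ w ∈ badS c V (c v w) (R - s)) :
    A.card * l ^ s ≤ R * V.card := by
  classical
  rcases Nat.lt_or_ge s R with h | h
  · have h1 := bad_pairs_out (A := A) hL hV hR hl h (by rwa [Hin_eq] at hv) hA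
      (fun v hv => (hAw v hv).1)
    have h2 : A.filter (fun w => w ∈ badS c V (c v w) (R - s)) = A := by
      rw [Finset.filter_eq_self]
      exact fun v hv => (hAw v hv).2
    rwa [h2] at h1
  · have h1 : A = ∅ := by
      rw [Finset.eq_empty_iff_forall_notMem]
      intro w hw
      have h2 := (hAw w hw).2
      have h3 : R - s = 0 := by omega
      rw [h3, badS_zero] at h2
      simp at h2
    rw [h1]
    simp

/-- neighbourhoods are small next to long paths -/
theorem card_Nb_le {g : ℕ → ℕ} (hL : Lev c V l lam) (hV : RB c V R)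
    (hg : ∀ U ⊆ V, ∀ j, RB c U j → U.card ≤ g j * l ^ j) (gm : Monotone g) {v a σ : ℕ}
    (hv : v ∈ V) (h : v ∉ badE c V a (R - σ)) : (Nb c V v a).card ≤ g σ * l ^ R := by
  rcases (Nb c V v a).eq_empty_or_nonempty with hE | ⟨w, hw⟩
  · rw [hE]; simp
  · obtain ⟨y, I, hp, ha, hI⟩ := not_mem_badE hv h
    obtain ⟨h2, h3, h4⟩ := mem_Nb.mp hw
    have h5 := hV _ _ _ (P.snoc hp h3 h2 (by rw [h4]; exact ha))
    rw [Finset.card_insert_of_notMem (by rw [h4]; exact ha)] at h5
    have h6 := Nb_card hL hV hp ha (fun U hU hRB => hg U hU (R - (I.card + 1)) hRB)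
    have h7 : l ^ (I.card + 1) * l ^ (R - (I.card + 1)) = l ^ R := by
      rw [← pow_add]; congr 1; omega
    calc (Nb c V v a).card ≤ l ^ (I.card + 1) * (g (R - (I.card + 1)) * l ^ (R - (I.card + 1))) := h6
      _ = g (R - (I.card + 1)) * (l ^ (I.card + 1) * l ^ (R - (I.card + 1))) := by ring
      _ = g (R - (I.card + 1)) * l ^ R := by rw [h7]
      _ ≤ g σ * l ^ R := Nat.mul_le_mul_right _ (gm (by omega))

theorem card_Nm_le {g : ℕ → ℕ} (hL : Lev c V l lam) (hV : RB c V R)
    (hg : ∀ U ⊆ V, ∀ j, RB c U j → U.card ≤ g j * l ^ j) (gm : Monotone g) {w a σ : ℕ}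
    (hw : w ∈ V) (h : w ∉ badS c V a (R - σ)) : (Nm c V w a).card ≤ g σ * l ^ R := by
  rcases (Nm c V w a).eq_empty_or_nonempty with hE | ⟨v, hv⟩
  · rw [hE]; simp
  · obtain ⟨y, I, hp, ha, hI⟩ := not_mem_badS hw h
    obtain ⟨h2, h3, h4⟩ := mem_Nm.mp hv
    have h5 := hV _ _ _ (P.cons h2 h3 hp (by rw [h4]; exact ha))
    rw [Finset.card_insert_of_notMem (by rw [h4]; exact ha)] at h5
    have h6 := Nm_card hL hV hp ha (fun U hU hRB => hg U hU (R - (I.card + 1)) hRB)
    have h7 : l ^ (I.card + 1) * l ^ (R - (I.card + 1)) = l ^ R := by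
      rw [← pow_add]; congr 1; omega
    calc (Nm c V w a).card ≤ l ^ (I.card + 1) * (g (R - (I.card + 1)) * l ^ (R - (I.card + 1))) := h6
      _ = g (R - (I.card + 1)) * (l ^ (I.card + 1) * l ^ (R - (I.card + 1))) := by ring
      _ = g (R - (I.card + 1)) * l ^ R := by rw [h7]
      _ ≤ g σ * l ^ R := Nat.mul_le_mul_right _ (gm (by omega))

/-- bound of a set of pairs by its fibres -/
theorem card_pairs_snd {S : Finset (ℕ × ℕ)} {W : Finset ℕ} {k m : ℕ}
    (hS : ∀ p ∈ S, p.2 ∈ W) (h : ∀ w ∈ W, (S.filter (fun p => p.2 = w)).card * k ≤ m) :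
    S.card * k ≤ W.card * m := by
  rw [Finset.card_eq_sum_card_fiberwise (f := Prod.snd) (t := W) (fun p hp => hS p hp),
    Finset.sum_mul]
  calc ∑ w ∈ W, (S.filter (fun p => p.2 = w)).card * k ≤ ∑ w ∈ W, m := Finset.sum_le_sum h
    _ = W.card * m := by simp

theorem card_pairs_fst {S : Finset (ℕ × ℕ)} {W : Finset ℕ} {k m : ℕ}
    (hS : ∀ p ∈ S, p.1 ∈ W) (h : ∀ w ∈ W, (S.filter (fun p => p.1 = w)).card * k ≤ m) :
    S.card * k ≤ W.card * m := by
  rw [Finset.card_eq_sum_card_fiberwise (f := Prod.fst) (t := W) (fun p hp => hS p hp),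
    Finset.sum_mul]
  calc ∑ w ∈ W, (S.filter (fun p => p.1 = w)).card * k ≤ ∑ w ∈ W, m := Finset.sum_le_sum h
    _ = W.card * m := by simp

/-- the increasing pairs -/
def Inc (W : Finset ℕ) : Finset (ℕ × ℕ) := (W ×ˢ W).filter (fun p => p.1 < p.2)

theorem mem_Inc {W : Finset ℕ} {p : ℕ × ℕ} : p ∈ Inc W ↔ p.1 ∈ W ∧ p.2 ∈ W ∧ p.1 < p.2 := by
  simp [Inc, and_assoc]

theorem card_Inc (W : Finset ℕ) : W.card * W.card ≤ 2 * (Inc W).card + W.card := by
  have h1 : W ×ˢ W ⊆ (Inc W ∪ (Inc W).image Prod.swap) ∪ W.image (fun x => (x, x)) := by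
    intro p hp
    rw [Finset.mem_product] at hp
    rcases Nat.lt_trichotomy p.1 p.2 with h | h | h
    · exact Finset.mem_union_left _ (Finset.mem_union_left _ (mem_Inc.mpr ⟨hp.1, hp.2, h⟩))
    · apply Finset.mem_union_right
      rw [Finset.mem_image]
      exact ⟨p.1, hp.1, by ext <;> simp [h]⟩
    · apply Finset.mem_union_left
      apply Finset.mem_union_right
      rw [Finset.mem_image]
      exact ⟨p.swap, mem_Inc.mpr ⟨hp.2, hp.1, h⟩, by simp⟩
  calc W.card * W.card = (W ×ˢ W).card := (Finset.card_product _ _).symm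
    _ ≤ _ := Finset.card_le_card h1
    _ ≤ (Inc W ∪ (Inc W).image Prod.swap).card + (W.image (fun x => (x, x))).card :=
        Finset.card_union_le _ _
    _ ≤ ((Inc W).card + ((Inc W).image Prod.swap).card) + (W.image (fun x => (x, x))).card :=
        Nat.add_le_add_right (Finset.card_union_le _ _) _
    _ ≤ _ := by
      have h2 : ((Inc W).image Prod.swap).card ≤ (Inc W).card := Finset.card_image_le
      have h3 : (W.image (fun x => (x, x))).card ≤ W.card := Finset.card_image_le
      omega

/-- J12 -/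
theorem find_X (hl : 2 ≤ l) (hL : Lev c V l lam) (hR : RB c V R) (hRec : Rec c V l R)
    {g : ℕ → ℕ} (hg : ∀ U ⊆ V, ∀ j, RB c U j → U.card ≤ g j * l ^ j) (gm : Monotone g)
    {V' C : Finset ℕ} {t κ σ s0 : ℕ} (hV'in : V' ⊆ Hin c V R) (hV'out : V' ⊆ Hout c V R)
    (hC : C.card ≤ 8 * t * R) (hrare : ∀ w ∈ V', (InC c V' w \ C).card < t)
    (hκ : V.card ≤ κ * V'.card) (h4 : 4 ≤ V'.card) (h1 : 32 * κ * R ≤ l ^ σ)
    (h2 : 32 * t * g σ * l ^ R ≤ V'.card)
    (h3 : 256 * t * R * κ * g σ * l ^ R ≤ l ^ s0 * V'.card) :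
    ∃ s < s0, ∃ D X : Finset ℕ, D.card + s = R ∧ X ⊆ V' ∧ V'.card ≤ 4 * R * X.card ∧
      ∀ x ∈ X, ∃ u, P c V u x D := by
  classical
  have hl1 : 1 ≤ l := by omega
  have hV'V : V' ⊆ V := hV'in.trans Hin_sub
  have hVc : V'.card ≤ V.card := Finset.card_le_card hV'V
  have hR0 : 0 < R := by
    rcases Nat.eq_zero_or_pos R with h | h
    · subst h
      have := card_le_one_of_RB hR
      omega
    · exact h
  have hκ0 : 0 < κ := by
    rcases Nat.eq_zero_or_pos κ with h | h
    · subst h
      omega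
    · exact h
  set N := V'.card with hN
  set T := Inc V' with hT
  -- the four kinds of bad pairs
  set B1 := T.filter (fun p => p.1 ∈ badE c V (c p.1 p.2) (R - σ)) with hB1
  set B2 := T.filter (fun p => p.2 ∈ badS c V (c p.1 p.2) (R - σ)) with hB2
  set B3 := T.filter (fun p => p.2 ∉ badS c V (c p.1 p.2) (R - σ) ∧ c p.1 p.2 ∉ C) with hB3
  set B4 := T.filter (fun p => c p.1 p.2 ∈ C ∧ p.1 ∈ badE c V (c p.1 p.2) (R - s0) ∧
    p.1 ∉ badE c V (c p.1 p.2) (R - σ)) with hB4
  have hB1c : 32 * B1.card ≤ N * N := by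
    have e1 : B1.card * l ^ σ ≤ N * (R * V.card) := by
      apply card_pairs_snd (W := V')
      · intro p hp
        exact (mem_Inc.mp (Finset.mem_filter.mp hp).1).2.1
      · intro w hw
        have e2 : (B1.filter (fun p => p.2 = w)).card =
            ((B1.filter (fun p => p.2 = w)).image Prod.fst).card := by
          rw [Finset.card_image_of_injOn]
          intro p hp q hq hpq
          have hp' := (Finset.mem_filter.mp (Finset.mem_coe.mp hp)).2
          have hq' := (Finset.mem_filter.mp (Finset.mem_coe.mp hq)).2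
          exact Prod.ext hpq (by rw [hp', hq'])
        rw [e2]
        apply pairs_in' hl1 hL hR hRec (hV'out hw)
        · intro v hv
          rw [Finset.mem_image] at hv
          obtain ⟨p, hp, rfl⟩ := hv
          exact hV'V (mem_Inc.mp (Finset.mem_filter.mp (Finset.mem_filter.mp hp).1).1).1
        · intro v hv
          rw [Finset.mem_image] at hv
          obtain ⟨p, hp, rfl⟩ := hv
          rw [Finset.mem_filter] at hp
          obtain ⟨hp1, hp2⟩ := hp
          rw [hB1, Finset.mem_filter] at hp1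
          rw [← hp2]
          exact ⟨(mem_Inc.mp hp1.1).2.2, hp1.2⟩
    have e3 : (κ * R) * (32 * B1.card) ≤ (κ * R) * (N * N) := by
      calc (κ * R) * (32 * B1.card) = B1.card * (32 * κ * R) := by ring
        _ ≤ B1.card * l ^ σ := Nat.mul_le_mul_left _ h1
        _ ≤ N * (R * V.card) := e1
        _ ≤ N * (R * (κ * N)) := by
            apply Nat.mul_le_mul_left
            exact Nat.mul_le_mul_left _ hκ
        _ = (κ * R) * (N * N) := by ring
    exact Nat.le_of_mul_le_mul_left e3 (by positivity)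
  have hB2c : 32 * B2.card ≤ N * N := by
    have e1 : B2.card * l ^ σ ≤ N * (R * V.card) := by
      apply card_pairs_fst (W := V')
      · intro p hp
        exact (mem_Inc.mp (Finset.mem_filter.mp hp).1).1
      · intro v hv
        have e2 : (B2.filter (fun p => p.1 = v)).card =
            ((B2.filter (fun p => p.1 = v)).image Prod.snd).card := by
          rw [Finset.card_image_of_injOn]
          intro p hp q hq hpq
          have hp' := (Finset.mem_filter.mp (Finset.mem_coe.mp hp)).2
          have hq' := (Finset.mem_filter.mp (Finset.mem_coe.mp hq)).2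
          exact Prod.ext (by rw [hp', hq']) hpq
        rw [e2]
        apply pairs_out' hl1 hL hR hRec (hV'in hv)
        · intro w hw
          rw [Finset.mem_image] at hw
          obtain ⟨p, hp, rfl⟩ := hw
          exact hV'V (mem_Inc.mp (Finset.mem_filter.mp (Finset.mem_filter.mp hp).1).1).2.1
        · intro w hw
          rw [Finset.mem_image] at hw
          obtain ⟨p, hp, rfl⟩ := hw
          rw [Finset.mem_filter] at hp
          obtain ⟨hp1, hp2⟩ := hp
          rw [hB2, Finset.mem_filter] at hp1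
          rw [← hp2]
          exact ⟨(mem_Inc.mp hp1.1).2.2, hp1.2⟩
    have e3 : (κ * R) * (32 * B2.card) ≤ (κ * R) * (N * N) := by
      calc (κ * R) * (32 * B2.card) = B2.card * (32 * κ * R) := by ring
        _ ≤ B2.card * l ^ σ := Nat.mul_le_mul_left _ h1
        _ ≤ N * (R * V.card) := e1
        _ ≤ N * (R * (κ * N)) := by
            apply Nat.mul_le_mul_left
            exact Nat.mul_le_mul_left _ hκ
        _ = (κ * R) * (N * N) := by ring
    exact Nat.le_of_mul_le_mul_left e3 (by positivity)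
  have hB3c : 32 * B3.card ≤ N * N := by
    have e1 : B3.card * 1 ≤ N * (t * (g σ * l ^ R)) := by
      apply card_pairs_snd (W := V')
      · intro p hp
        exact (mem_Inc.mp (Finset.mem_filter.mp hp).1).2.1
      · intro w hw
        rw [mul_one]
        have e2 : (B3.filter (fun p => p.2 = w)).card =
            ((B3.filter (fun p => p.2 = w)).image Prod.fst).card := by
          rw [Finset.card_image_of_injOn]
          intro p hp q hq hpq
          have hp' := (Finset.mem_filter.mp (Finset.mem_coe.mp hp)).2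
          have hq' := (Finset.mem_filter.mp (Finset.mem_coe.mp hq)).2
          exact Prod.ext hpq (by rw [hp', hq'])
        rw [e2]
        have e4 : (B3.filter (fun p => p.2 = w)).image Prod.fst ⊆
            (InC c V' w \ C).biUnion (fun a => if w ∈ badS c V a (R - σ) then ∅ else Nm c V w a) := by
          intro v hv
          rw [Finset.mem_image] at hv
          obtain ⟨p, hp, rfl⟩ := hv
          rw [Finset.mem_filter] at hp
          obtain ⟨hp1, hp2⟩ := hp
          rw [hB3, Finset.mem_filter] at hp1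
          obtain ⟨hp3, hp4, hp5⟩ := hp1
          obtain ⟨hp6, _, hp8⟩ := mem_Inc.mp hp3
          rw [hp2] at hp4 hp5 hp8
          rw [Finset.mem_biUnion]
          refine ⟨c p.1 w, ?_, ?_⟩
          · rw [Finset.mem_sdiff]
            exact ⟨mem_InC.mpr ⟨p.1, hp6, hp8, rfl⟩, hp5⟩
          · rw [if_neg hp4]
            exact mem_Nm.mpr ⟨hV'V hp6, hp8, rfl⟩
        calc ((B3.filter (fun p => p.2 = w)).image Prod.fst).card ≤ _ := Finset.card_le_card e4
          _ ≤ ∑ a ∈ InC c V' w \ C, (if w ∈ badS c V a (R - σ) then ∅ else Nm c V w a).card :=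
              Finset.card_biUnion_le
          _ ≤ ∑ a ∈ InC c V' w \ C, g σ * l ^ R := by
              apply Finset.sum_le_sum
              intro a _
              split_ifs with h
              · simp
              · exact card_Nm_le hL hR hg gm (hV'V hw) h
          _ = (InC c V' w \ C).card * (g σ * l ^ R) := by simp
          _ ≤ t * (g σ * l ^ R) := Nat.mul_le_mul_right _ (hrare w hw).le
    calc 32 * B3.card = 32 * (B3.card * 1) := by ring
      _ ≤ 32 * (N * (t * (g σ * l ^ R))) := Nat.mul_le_mul_left _ e1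
      _ = N * (32 * t * g σ * l ^ R) := by ring
      _ ≤ N * N := Nat.mul_le_mul_left _ h2
  have hB4c : 32 * B4.card ≤ N * N := by
    have e4 : B4 ⊆ C.biUnion (fun a => (badE c V a (R - s0)).biUnion (fun v =>
        if v ∈ badE c V a (R - σ) then ∅ else (Nb c V v a).image (fun w => (v, w)))) := by
      intro p hp
      rw [hB4, Finset.mem_filter] at hp
      obtain ⟨hp1, hp2, hp3, hp4⟩ := hp
      obtain ⟨hp5, hp6, hp7⟩ := mem_Inc.mp hp1
      rw [Finset.mem_biUnion]
      refine ⟨_, hp2, ?_⟩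
      rw [Finset.mem_biUnion]
      refine ⟨p.1, hp3, ?_⟩
      rw [if_neg hp4, Finset.mem_image]
      exact ⟨p.2, mem_Nb.mpr ⟨hV'V hp6, hp7, rfl⟩, rfl⟩
    have e5 : B4.card ≤ ∑ a ∈ C, (badE c V a (R - s0)).card * (g σ * l ^ R) := by
      calc B4.card ≤ _ := Finset.card_le_card e4
        _ ≤ ∑ a ∈ C, ((badE c V a (R - s0)).biUnion (fun v =>
            if v ∈ badE c V a (R - σ) then ∅ else (Nb c V v a).image (fun w => (v, w)))).card :=
            Finset.card_biUnion_le
        _ ≤ ∑ a ∈ C, (badE c V a (R - s0)).card * (g σ * l ^ R) := by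
            apply Finset.sum_le_sum
            intro a _
            calc _ ≤ ∑ v ∈ badE c V a (R - s0), (if v ∈ badE c V a (R - σ) then ∅ else
                  (Nb c V v a).image (fun w => (v, w))).card := Finset.card_biUnion_le
              _ ≤ ∑ v ∈ badE c V a (R - s0), g σ * l ^ R := by
                  apply Finset.sum_le_sum
                  intro v hv
                  split_ifs with h
                  · simp
                  · exact Finset.card_image_le.trans
                      (card_Nb_le hL hR hg gm (mem_badE.mp hv).1 h)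
              _ = _ := by simp
    have e6 : B4.card * l ^ s0 ≤ 8 * t * R * (V.card * (g σ * l ^ R)) := by
      calc B4.card * l ^ s0 ≤ (∑ a ∈ C, (badE c V a (R - s0)).card * (g σ * l ^ R)) * l ^ s0 :=
            Nat.mul_le_mul_right _ e5
        _ = ∑ a ∈ C, ((badE c V a (R - s0)).card * l ^ s0) * (g σ * l ^ R) := by
            rw [Finset.sum_mul]
            apply Finset.sum_congr rfl
            intro a _
            ring
        _ ≤ ∑ a ∈ C, V.card * (g σ * l ^ R) := by
            apply Finset.sum_le_sum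
            intro a _
            exact Nat.mul_le_mul_right _ (T_E' hl1 hL hRec a s0)
        _ = C.card * (V.card * (g σ * l ^ R)) := by simp
        _ ≤ 8 * t * R * (V.card * (g σ * l ^ R)) := Nat.mul_le_mul_right _ hC
    have e7 : l ^ s0 * (32 * B4.card) ≤ l ^ s0 * (N * N) := by
      calc l ^ s0 * (32 * B4.card) = 32 * (B4.card * l ^ s0) := by ring
        _ ≤ 32 * (8 * t * R * (V.card * (g σ * l ^ R))) := Nat.mul_le_mul_left _ e6
        _ ≤ 32 * (8 * t * R * ((κ * N) * (g σ * l ^ R))) := by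
            apply Nat.mul_le_mul_left
            apply Nat.mul_le_mul_left
            exact Nat.mul_le_mul_right _ hκ
        _ = (256 * t * R * κ * g σ * l ^ R) * N := by ring
        _ ≤ (l ^ s0 * N) * N := Nat.mul_le_mul_right _ h3
        _ = l ^ s0 * (N * N) := by ring
    exact Nat.le_of_mul_le_mul_left e7 (by positivity)
  -- the good pairs
  set Gd := T \ (((B1 ∪ B2) ∪ B3) ∪ B4) with hGd
  have hTc : T.card ≤ Gd.card + (B1.card + B2.card + B3.card + B4.card) := by
    have e1 : T ⊆ Gd ∪ (((B1 ∪ B2) ∪ B3) ∪ B4) := by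
      intro p hp
      by_cases h : p ∈ ((B1 ∪ B2) ∪ B3) ∪ B4
      · exact Finset.mem_union_right _ h
      · exact Finset.mem_union_left _ (Finset.mem_sdiff.mpr ⟨hp, h⟩)
    have e2 := Finset.card_le_card e1
    have e3 := Finset.card_union_le Gd (((B1 ∪ B2) ∪ B3) ∪ B4)
    have e5 := Finset.card_union_le ((B1 ∪ B2) ∪ B3) B4
    have e6 := Finset.card_union_le (B1 ∪ B2) B3
    have e7 := Finset.card_union_le B1 B2
    omega
  have hTN : N * N ≤ 2 * T.card + N := card_Inc V'
  have hGdc : N * N ≤ 4 * Gd.card := by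
    have e1 : 4 * N ≤ N * N := Nat.mul_le_mul_right _ h4
    omega
  -- a vertex with many good pairs
  have hv : ∃ v ∈ V', N ≤ 4 * (Gd.filter (fun p => p.1 = v)).card := by
    by_contra hcon
    push Not at hcon
    have e1 : Gd.card = ∑ v ∈ V', (Gd.filter (fun p => p.1 = v)).card :=
      Finset.card_eq_sum_card_fiberwise (fun p hp => by
        exact (mem_Inc.mp (Finset.mem_sdiff.mp hp).1).1)
    have e2 : ∑ v ∈ V', 4 * (Gd.filter (fun p => p.1 = v)).card < ∑ v ∈ V', N := by
      apply Finset.sum_lt_sum_of_nonempty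
      · rw [← Finset.card_pos]; omega
      · exact hcon
    rw [← Finset.mul_sum, ← e1, Finset.sum_const, smul_eq_mul, ← hN] at e2
    omega
  obtain ⟨v, hvV', hvN⟩ := hv
  set F := (Gd.filter (fun p => p.1 = v)).image Prod.snd with hF
  have hFc : F.card = (Gd.filter (fun p => p.1 = v)).card := by
    rw [hF, Finset.card_image_of_injOn]
    intro p hp q hq hpq
    have hp' := (Finset.mem_filter.mp (Finset.mem_coe.mp hp)).2
    have hq' := (Finset.mem_filter.mp (Finset.mem_coe.mp hq)).2
    exact Prod.ext (by rw [hp', hq']) hpq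
  have hFmem : ∀ w ∈ F, w ∈ V' ∧ v < w ∧ v ∉ badE c V (c v w) (R - s0) := by
    intro w hw
    rw [hF, Finset.mem_image] at hw
    obtain ⟨p, hp, rfl⟩ := hw
    rw [Finset.mem_filter] at hp
    obtain ⟨hp1, hp2⟩ := hp
    rw [hGd, Finset.mem_sdiff] at hp1
    obtain ⟨hp3, hp4⟩ := hp1
    have hp5 := mem_Inc.mp hp3
    simp only [Finset.mem_union, not_or] at hp4
    obtain ⟨⟨⟨hp6, hp7⟩, hp8⟩, hp9⟩ := hp4
    rw [hB1, Finset.mem_filter, not_and] at hp6
    rw [hB2, Finset.mem_filter, not_and] at hp7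
    rw [hB3, Finset.mem_filter, not_and] at hp8
    rw [hB4, Finset.mem_filter, not_and] at hp9
    have f1 := hp6 hp3
    have f2 := hp7 hp3
    have f3 : c p.1 p.2 ∈ C := by
      by_contra h
      exact hp8 hp3 ⟨f2, h⟩
    have f4 : p.1 ∉ badE c V (c p.1 p.2) (R - s0) := by
      intro h
      exact hp9 hp3 ⟨f3, h, f1⟩
    rw [hp2] at f4
    rw [← hp2]
    exact ⟨hp5.2.1, hp5.2.2, by rw [hp2]; exact f4⟩
  -- a colour
  have ha : ∃ a ∈ OutC c V v, F.card ≤ R * (F.filter (fun w => c v w = a)).card := by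
    by_contra hcon
    push Not at hcon
    have e1 : F.card = ∑ a ∈ OutC c V v, (F.filter (fun w => c v w = a)).card :=
      Finset.card_eq_sum_card_fiberwise (fun w hw => by
        have := hFmem w hw
        exact mem_OutC.mpr ⟨w, hV'V this.1, this.2.1, rfl⟩)
    have e2 : (OutC c V v).Nonempty := by
      have e3 : F.Nonempty := by
        rw [← Finset.card_pos]
        omega
      obtain ⟨w, hw⟩ := e3
      have := hFmem w hw
      exact ⟨c v w, mem_OutC.mpr ⟨w, hV'V this.1, this.2.1, rfl⟩⟩
    have e3 : ∑ a ∈ OutC c V v, R * (F.filter (fun w => c v w = a)).card <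
        ∑ a ∈ OutC c V v, F.card := Finset.sum_lt_sum_of_nonempty e2 hcon
    rw [← Finset.mul_sum, ← e1, Finset.sum_const, smul_eq_mul] at e3
    have e4 := Nat.mul_le_mul_right F.card (outC_card hR (hV'in hvV'))
    omega
  obtain ⟨a, _, haF⟩ := ha
  set X := F.filter (fun w => c v w = a) with hX
  have hXc : N ≤ 4 * R * X.card := by
    calc N ≤ 4 * F.card := by rw [hFc]; exact hvN
      _ ≤ 4 * (R * X.card) := Nat.mul_le_mul_left _ haF
      _ = 4 * R * X.card := by ring
  have hXne : X.Nonempty := by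
    rw [← Finset.card_pos]
    rcases Nat.eq_zero_or_pos X.card with h | h
    · rw [h] at hXc
      omega
    · exact h
  obtain ⟨w0, hw0⟩ := hXne
  have hw0' := Finset.mem_filter.mp hw0
  have hw0F := hFmem w0 hw0'.1
  have hnb : v ∉ badE c V a (R - s0) := by
    have := hw0F.2.2
    rwa [hw0'.2] at this
  obtain ⟨y, I, hp, haI, hI⟩ := not_mem_badE (hV'V hvV') hnb
  have hpath : ∀ x ∈ X, P c V y x (insert a I) := by
    intro x hx
    have hx' := Finset.mem_filter.mp hx
    have hxF := hFmem x hx'.1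
    have := P.snoc hp hxF.2.1 (hV'V hxF.1) (by rw [hx'.2]; exact haI)
    rwa [hx'.2] at this
  have hDc : (insert a I).card = I.card + 1 := Finset.card_insert_of_notMem haI
  have hDR := hR _ _ _ (hpath w0 hw0)
  refine ⟨R - (insert a I).card, by omega, insert a I, X, by omega, ?_, hXc, ?_⟩
  · intro x hx
    exact (hFmem x (Finset.mem_filter.mp hx).1).1
  · intro x hx
    exact ⟨y, hpath x hx⟩

end Pool.Agent.TH780.FR
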