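import Pool.Agent.TH195.FR.AP

/-! MP_f298ee_co: statements J5, J8, J9, J10, J15 of helper780's plan. -/

namespace Pool.Agent.TH780.FR

open Finset Pool.Agent.TH195.FR

variable {c : ℕ → ℕ → ℕ} {V U B D : Finset ℕ} {x y z l R : ℕ} {I J : Finset ℕ} {lam : ℕ → ℕ → ℕ}

theorem Hin_eq : Hin c V R = En c V R := by
  ext x
  rw [mem_Hin, mem_En]

theorem Hout_eq : Hout c V R = St c V R := by
  ext x
  rw [mem_Hout, mem_St]

theorem Cr_le (R : ℕ) : Cr R ≤ (R + 2).factorial := by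
  induction R with
  | zero => simp [Cr]
  | succ R ih =>
    have : (R + 1 + 2).factorial = (R + 3) * (R + 2).factorial := Nat.factorial_succ (R + 2)
    rw [this]
    simp only [Cr]
    exact Nat.mul_le_mul_left _ ih

/-- J5 trivial bound -/
theorem trivial_bound (hl : 1 ≤ l) (hL : Lev c V l lam) (hR : RB c V R) :
    V.card ≤ (R + 2).factorial * l ^ R :=
  (crude hl R V hL hR).trans (Nat.mul_le_mul_right _ (Cr_le R))

/-- J8 record -/
theorem exists_record (hl : 1 ≤ l) {R' : ℕ} (hR : RB c V R') :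
    ∃ R ≤ R', ∃ U ⊆ V, RB c U R ∧ Rec c U l R ∧ V.card * l ^ R ≤ U.card * l ^ R' := by
  classical
  set S : Finset (ℕ × Finset ℕ) :=
    ((Finset.range (R' + 1)) ×ˢ V.powerset).filter (fun p => RB c p.2 p.1) with hS
  have hmem : ∀ p : ℕ × Finset ℕ, p ∈ S ↔ p.1 ≤ R' ∧ p.2 ⊆ V ∧ RB c p.2 p.1 := by
    intro p
    rw [hS, Finset.mem_filter, Finset.mem_product, Finset.mem_range, Finset.mem_powerset]
    constructor
    · rintro ⟨⟨h1, h2⟩, h3⟩
      exact ⟨by omega, h2, h3⟩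
    · rintro ⟨h1, h2, h3⟩
      exact ⟨⟨by omega, h2⟩, h3⟩
  have hne : S.Nonempty := ⟨(R', V), (hmem _).mpr ⟨le_rfl, Finset.Subset.refl _, hR⟩⟩
  obtain ⟨⟨R, U⟩, hp, hmax⟩ := Finset.exists_max_image S (fun p => p.2.card * l ^ (R' - p.1)) hne
  obtain ⟨h1, h2, h3⟩ := (hmem _).mp hp
  simp only at h1 h2 h3
  refine ⟨R, h1, U, h2, h3, ?_, ?_⟩
  · intro U' hU' j hj hRB
    have h4 := hmax (j, U') ((hmem _).mpr ⟨by simp only; omega, hU'.trans h2, hRB⟩)
    simp only at h4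
    have h5 : R' - j = (R - j) + (R' - R) := by omega
    rw [h5, pow_add, ← mul_assoc] at h4
    exact Nat.le_of_mul_le_mul_right h4 (by positivity)
  · have h4 := hmax (R', V) ((hmem _).mpr ⟨le_rfl, Finset.Subset.refl _, hR⟩)
    simp only [Nat.sub_self, pow_zero, mul_one] at h4
    calc V.card * l ^ R ≤ U.card * l ^ (R' - R) * l ^ R := Nat.mul_le_mul_right _ h4
      _ = U.card * l ^ R' := by
        rw [mul_assoc, ← pow_add]
        congr 2
        omega

/-- J9 typicality -/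
theorem few_in (hl : 1 ≤ l) (hL : Lev c V l lam) (hRec : Rec c V l R) (a s : ℕ) (hBV : B ⊆ V)
    (hB : ∀ x ∈ B, ∀ u I, P c V u x I → a ∉ I → I.card + 1 + s ≤ R) :
    B.card * l ^ s ≤ V.card := by
  rcases B.eq_empty_or_nonempty with hE | ⟨x0, hx0⟩
  · rw [hE]; simp
  · have h1 := hB x0 hx0 x0 ∅ (P.nil (hBV hx0)) (by simp)
    have h2 : B ⊆ badE c V a (R - s) := by
      intro x hx
      rw [mem_badE]
      refine ⟨hBV hx, fun y I hp ha => ?_⟩
      have := hB x hx y I hp ha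
      omega
    calc B.card * l ^ s ≤ (badE c V a (R - s)).card * l ^ s :=
          Nat.mul_le_mul_right _ (Finset.card_le_card h2)
      _ ≤ V.card := T_E hL hRec hl a (by simp at h1; omega)

theorem few_out (hl : 1 ≤ l) (hL : Lev c V l lam) (hRec : Rec c V l R) (a s : ℕ) (hBV : B ⊆ V)
    (hB : ∀ x ∈ B, ∀ u I, P c V x u I → a ∉ I → I.card + 1 + s ≤ R) :
    B.card * l ^ s ≤ V.card := by
  rcases B.eq_empty_or_nonempty with hE | ⟨x0, hx0⟩
  · rw [hE]; simp
  · have h1 := hB x0 hx0 x0 ∅ (P.nil (hBV hx0)) (by simp)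
    have h2 : B ⊆ badS c V a (R - s) := by
      intro x hx
      rw [mem_badS]
      refine ⟨hBV hx, fun y I hp ha => ?_⟩
      have := hB x hx y I hp ha
      omega
    calc B.card * l ^ s ≤ (badS c V a (R - s)).card * l ^ s :=
          Nat.mul_le_mul_right _ (Finset.card_le_card h2)
      _ ≤ V.card := T_S hL hRec hl a (by simp at h1; omega)

theorem card_not_Hin (hR : RB c V R) (h1 : 1 ≤ R) (hRec : Rec c V l R) :
    (V \ Hin c V R).card * l ≤ V.card := by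
  rw [Hin_eq]
  exact card_diff_En hR hRec h1

theorem card_not_Hout (hR : RB c V R) (h1 : 1 ≤ R) (hRec : Rec c V l R) :
    (V \ Hout c V R).card * l ≤ V.card := by
  rw [Hout_eq]
  exact card_diff_St hR hRec h1

theorem outC_card (hR : RB c V R) (hx : x ∈ Hin c V R) : (OutC c V x).card ≤ R :=
  Pool.Agent.TH195.FR.outC_card hR (by rwa [Hin_eq] at hx)

theorem inC_card (hR : RB c V R) (hx : x ∈ Hout c V R) : (InC c V x).card ≤ R :=
  Pool.Agent.TH195.FR.inC_card hR (by rwa [Hout_eq] at hx)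

/-- J10 -/
theorem card_WD (hl : 1 ≤ l) (hL : Lev c V l lam) (hR : RB c V R) {g : ℕ → ℕ}
    (hg : ∀ U ⊆ V, ∀ j, RB c U j → U.card ≤ g j * l ^ j) {s q : ℕ} (hDs : D.card + s = R)
    (hUV : U ⊆ V) (hU : ∀ x ∈ U, ∃ u J, P c V u x J ∧ J ⊆ D ∧ D.card ≤ J.card + q) :
    U.card ≤ g (s + q) * l ^ (R + q) := by
  have _ := hl
  have h1 : R - D.card + q = s + q := by omega
  have h2 := VD_card (q := q) (f := g (s + q) * l ^ (s + q)) hL hR hUV D hU
    (fun W hW hRB => hg W hW (s + q) (by rwa [h1] at hRB))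
  calc U.card ≤ l ^ D.card * (g (s + q) * l ^ (s + q)) := h2
    _ = g (s + q) * (l ^ D.card * l ^ (s + q)) := by ring
    _ = g (s + q) * l ^ (R + q) := by
      rw [← pow_add]
      congr 2
      omega

theorem card_VD (hl : 1 ≤ l) (hL : Lev c V l lam) (hR : RB c V R) {g : ℕ → ℕ}
    (hg : ∀ U ⊆ V, ∀ j, RB c U j → U.card ≤ g j * l ^ j) {s : ℕ} (hDs : D.card + s = R)
    (hUV : U ⊆ V) (hU : ∀ x ∈ U, ∃ u, P c V u x D) : U.card ≤ g s * l ^ R := by
  have := card_WD (q := 0) hl hL hR hg hDs hUV (fun x hx => by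
    obtain ⟨u, hu⟩ := hU x hx
    exact ⟨u, D, hu, Finset.Subset.refl _, by omega⟩)
  simpa using this

theorem card_VD' (hl : 1 ≤ l) (hL : Lev c V l lam) (hR : RB c V R) {g : ℕ → ℕ}
    (hg : ∀ U ⊆ V, ∀ j, RB c U j → U.card ≤ g j * l ^ j) {s : ℕ} (hDs : D.card + s = R)
    (hUV : U ⊆ V) (hU : ∀ x ∈ U, ∃ u, P c V x u D) : U.card ≤ g s * l ^ R := by
  have _ := hl
  have h1 : R - D.card + 0 = s := by omega
  have h2 := VD_card' (q := 0) (f := g s * l ^ s) hL hR hUV D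
    (fun x hx => by
      obtain ⟨u, hu⟩ := hU x hx
      exact ⟨u, D, hu, Finset.Subset.refl _, by omega⟩)
    (fun W hW hRB => hg W hW s (by rwa [h1] at hRB))
  calc U.card ≤ l ^ D.card * (g s * l ^ s) := h2
    _ = g s * (l ^ D.card * l ^ s) := by ring
    _ = g s * l ^ R := by
      rw [← pow_add]
      congr 2

/-- J15 (AP) -/
theorem ap_bound : ∃ G : ℕ, ∀ (c : ℕ → ℕ → ℕ) (V : Finset ℕ) (l R : ℕ) (lam : ℕ → ℕ → ℕ), 3 ≤ l →
    Lev c V l lam → RB c V R → V.card ≤ G * (R + 1) ^ 2 * l ^ R := by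
  obtain ⟨G, _, h⟩ := AP
  exact ⟨G, fun c V l R lam hl hL hV => h c l lam R V hl hL hV⟩

end Pool.Agent.TH780.FR
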