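import Pool.Agent.TH780.FR.Defs

/-! MP_f298ee_co, part of the formalisation of helper780's proof: level splitting, the crude form of
(K), the record consequences (T), (T*), and the vertices at the ends / starts of longest rainbow
paths. -/

namespace Pool.Agent.TH195.FR

open Finset Pool.Agent.TH780.FR

variable {c : ℕ → ℕ → ℕ} {V U B D : Finset ℕ} {x y z l R : ℕ} {I J : Finset ℕ} {lam : ℕ → ℕ → ℕ}

/-- the class of level `i` for the colour `a` -/
def cls (lam : ℕ → ℕ → ℕ) (B : Finset ℕ) (a i : ℕ) : Finset ℕ := B.filter (fun x => lam a x = i)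

theorem cls_sub {a i : ℕ} : cls lam B a i ⊆ B := Finset.filter_subset _ _

theorem cls_free (hL : Lev c B l lam) (a i : ℕ) : Free c (cls lam B a i) {a} := by
  intro x hx y hy hxy hc
  rw [cls, Finset.mem_filter] at hx hy
  rw [Finset.mem_singleton] at hc
  have := hL.mono x hx.1 y hy.1 hxy
  rw [hc, hx.2, hy.2] at this
  omega

theorem card_eq_sum_cls (hL : Lev c B l lam) (a : ℕ) :
    B.card = ∑ i ∈ Finset.range l, (cls lam B a i).card := by
  unfold cls
  exact Finset.card_eq_sum_card_fiberwise (fun x hx => by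
    simpa using hL.lt a x hx)

theorem card_le_of_cls (hL : Lev c B l lam) (a : ℕ) {m : ℕ}
    (h : ∀ i, (cls lam B a i).card ≤ m) : B.card ≤ l * m := by
  rw [card_eq_sum_cls hL a]
  calc ∑ i ∈ Finset.range l, (cls lam B a i).card ≤ ∑ i ∈ Finset.range l, m :=
        Finset.sum_le_sum (fun i _ => h i)
    _ = l * m := by simp

theorem card_mul_le_of_cls (hL : Lev c B l lam) (a : ℕ) {m k : ℕ}
    (h : ∀ i, (cls lam B a i).card * k ≤ m) : B.card * k ≤ l * m := by
  rw [card_eq_sum_cls hL a, Finset.sum_mul]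
  calc ∑ i ∈ Finset.range l, (cls lam B a i).card * k ≤ ∑ i ∈ Finset.range l, m :=
        Finset.sum_le_sum (fun i _ => h i)
    _ = l * m := by simp

/-- crude form of (K) -/
theorem K0 {f : ℕ} (hL : Lev c B l lam) (D : Finset ℕ) :
    (∀ B' ⊆ B, Free c B' D → B'.card ≤ f) → B.card ≤ l ^ D.card * f := by
  induction D using Finset.induction_on generalizing B with
  | empty =>
    intro h
    have := h B (Finset.Subset.refl _) (by intro x _ y _ _; simp)
    simpa using this
  | insert a D ha ih =>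
    intro h
    have h1 : ∀ i, (cls lam B a i).card ≤ l ^ D.card * f := by
      intro i
      apply ih (hL.sub cls_sub)
      intro B' hB' hF
      apply h B' (hB'.trans cls_sub)
      intro x hx y hy hxy hc
      rw [Finset.mem_insert] at hc
      rcases hc with hc | hc
      · exact cls_free hL a i x (hB' hx) y (hB' hy) hxy (by simpa using hc)
      · exact hF x hx y hy hxy hc
    have h2 := card_le_of_cls hL a h1
    rw [Finset.card_insert_of_notMem ha, pow_succ]
    calc B.card ≤ l * (l ^ D.card * f) := h2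
      _ = l ^ D.card * l * f := by ring

open Classical in
/-- vertices without a rainbow path to them avoiding `a` with at least `k` edges -/
noncomputable def badE (c : ℕ → ℕ → ℕ) (V : Finset ℕ) (a k : ℕ) : Finset ℕ :=
  V.filter (fun x => ∀ y I, P c V y x I → a ∉ I → I.card < k)

open Classical in
/-- vertices without a rainbow path from them avoiding `a` with at least `k` edges -/
noncomputable def badS (c : ℕ → ℕ → ℕ) (V : Finset ℕ) (a k : ℕ) : Finset ℕ :=
  V.filter (fun x => ∀ y I, P c V x y I → a ∉ I → I.card < k)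

open Classical in
/-- ends of rainbow paths with `R` edges -/
noncomputable def En (c : ℕ → ℕ → ℕ) (V : Finset ℕ) (R : ℕ) : Finset ℕ :=
  V.filter (fun x => ∃ y I, P c V y x I ∧ I.card = R)

open Classical in
/-- starts of rainbow paths with `R` edges -/
noncomputable def St (c : ℕ → ℕ → ℕ) (V : Finset ℕ) (R : ℕ) : Finset ℕ :=
  V.filter (fun x => ∃ y I, P c V x y I ∧ I.card = R)

theorem mem_badE {a k : ℕ} : x ∈ badE c V a k ↔
    x ∈ V ∧ ∀ y I, P c V y x I → a ∉ I → I.card < k := by simp [badE]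

theorem mem_badS {a k : ℕ} : x ∈ badS c V a k ↔
    x ∈ V ∧ ∀ y I, P c V x y I → a ∉ I → I.card < k := by simp [badS]

theorem mem_En : x ∈ En c V R ↔ x ∈ V ∧ ∃ y I, P c V y x I ∧ I.card = R := by simp [En]

theorem mem_St : x ∈ St c V R ↔ x ∈ V ∧ ∃ y I, P c V x y I ∧ I.card = R := by simp [St]

theorem not_mem_badE {a k : ℕ} (hx : x ∈ V) (h : x ∉ badE c V a k) :
    ∃ y I, P c V y x I ∧ a ∉ I ∧ k ≤ I.card := by
  rw [mem_badE] at h
  push Not at h
  exact h hx

theorem not_mem_badS {a k : ℕ} (hx : x ∈ V) (h : x ∉ badS c V a k) :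
    ∃ y I, P c V x y I ∧ a ∉ I ∧ k ≤ I.card := by
  rw [mem_badS] at h
  push Not at h
  exact h hx

/-- (T): few vertices have no path to them of length `≥ R - s` avoiding a given colour -/
theorem T_E (hL : Lev c V l lam) (hR : Rec c V l R) (hl : 0 < l) (a : ℕ) {s : ℕ} (hs : s < R) :
    (badE c V a (R - s)).card * l ^ s ≤ V.card := by
  have hsub : badE c V a (R - s) ⊆ V := by
    intro x hx
    exact (mem_badE.mp hx).1
  have h1 : ∀ i, (cls lam (badE c V a (R - s)) a i).card * l ^ (s + 1) ≤ V.card := by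
    intro i
    have h2 := hR (cls lam (badE c V a (R - s)) a i) (cls_sub.trans hsub) (R - s - 1) (by omega) (by
      intro x y I hp
      have h3 : a ∉ I := by
        have := hp.disj_of_free (cls_free (hL.sub hsub) a i)
        rw [Finset.disjoint_singleton_right] at this
        exact this
      have h4 := (mem_badE.mp (cls_sub hp.right_mem)).2 x I (hp.mono (cls_sub.trans hsub)) h3
      omega)
    have h5 : R - (R - s - 1) = s + 1 := by omega
    rwa [h5] at h2
  have h3 := card_mul_le_of_cls (hL.sub hsub) a h1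
  have h4 : l * ((badE c V a (R - s)).card * l ^ s) ≤ l * V.card := by
    calc l * ((badE c V a (R - s)).card * l ^ s) = (badE c V a (R - s)).card * l ^ (s + 1) := by ring
      _ ≤ l * V.card := h3
  exact Nat.le_of_mul_le_mul_left h4 hl

/-- (T*) -/
theorem T_S (hL : Lev c V l lam) (hR : Rec c V l R) (hl : 0 < l) (a : ℕ) {s : ℕ} (hs : s < R) :
    (badS c V a (R - s)).card * l ^ s ≤ V.card := by
  have hsub : badS c V a (R - s) ⊆ V := by
    intro x hx
    exact (mem_badS.mp hx).1
  have h1 : ∀ i, (cls lam (badS c V a (R - s)) a i).card * l ^ (s + 1) ≤ V.card := by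
    intro i
    have h2 := hR (cls lam (badS c V a (R - s)) a i) (cls_sub.trans hsub) (R - s - 1) (by omega) (by
      intro x y I hp
      have h3 : a ∉ I := by
        have := hp.disj_of_free (cls_free (hL.sub hsub) a i)
        rw [Finset.disjoint_singleton_right] at this
        exact this
      have h4 := (mem_badS.mp (cls_sub hp.left_mem)).2 y I (hp.mono (cls_sub.trans hsub)) h3
      omega)
    have h5 : R - (R - s - 1) = s + 1 := by omega
    rwa [h5] at h2
  have h3 := card_mul_le_of_cls (hL.sub hsub) a h1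
  have h4 : l * ((badS c V a (R - s)).card * l ^ s) ≤ l * V.card := by
    calc l * ((badS c V a (R - s)).card * l ^ s) = (badS c V a (R - s)).card * l ^ (s + 1) := by ring
      _ ≤ l * V.card := h3
  exact Nat.le_of_mul_le_mul_left h4 hl

theorem En_sub : En c V R ⊆ V := fun _ hx => (mem_En.mp hx).1

theorem St_sub : St c V R ⊆ V := fun _ hx => (mem_St.mp hx).1

/-- a set without ends of paths with `R + 1` edges has rainbow number at most `R` -/
theorem RB_diff_En (hV : RB c V (R + 1)) : RB c (V \ En c V (R + 1)) R := by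
  intro x y I hp
  have h1 := hp.mono (Finset.sdiff_subset)
  have h2 := hV _ _ _ h1
  by_contra h3
  have h4 := hp.right_mem
  rw [Finset.mem_sdiff] at h4
  exact h4.2 (mem_En.mpr ⟨h4.1, x, I, h1, by omega⟩)

theorem RB_diff_St (hV : RB c V (R + 1)) : RB c (V \ St c V (R + 1)) R := by
  intro x y I hp
  have h1 := hp.mono (Finset.sdiff_subset)
  have h2 := hV _ _ _ h1
  by_contra h3
  have h4 := hp.left_mem
  rw [Finset.mem_sdiff] at h4
  exact h4.2 (mem_St.mpr ⟨h4.1, y, I, h1, by omega⟩)

theorem card_diff_En (hV : RB c V R) (hR : Rec c V l R) (h0 : 0 < R) :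
    (V \ En c V R).card * l ≤ V.card := by
  obtain ⟨R', rfl⟩ : ∃ R', R = R' + 1 := ⟨R - 1, by omega⟩
  have := hR _ Finset.sdiff_subset R' (by omega) (RB_diff_En hV)
  have h5 : R' + 1 - R' = 1 := by omega
  rwa [h5, pow_one] at this

theorem card_diff_St (hV : RB c V R) (hR : Rec c V l R) (h0 : 0 < R) :
    (V \ St c V R).card * l ≤ V.card := by
  obtain ⟨R', rfl⟩ : ∃ R', R = R' + 1 := ⟨R - 1, by omega⟩
  have := hR _ Finset.sdiff_subset R' (by omega) (RB_diff_St hV)
  have h5 : R' + 1 - R' = 1 := by omega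
  rwa [h5, pow_one] at this

/-- the out-colours of an end of a longest path belong to the path -/
theorem out_of_end (hV : RB c V R) (hp : P c V y x I) (hI : I.card = R) (hz : z ∈ V) (hxz : x < z) :
    c x z ∈ I := by
  by_contra h
  have h1 := hV _ _ _ (P.snoc hp hxz hz h)
  rw [Finset.card_insert_of_notMem h] at h1
  omega

theorem in_of_start (hV : RB c V R) (hp : P c V x y I) (hI : I.card = R) (hz : z ∈ V) (hzx : z < x) :
    c z x ∈ I := by
  by_contra h
  have h1 := hV _ _ _ (P.cons hz hzx hp h)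
  rw [Finset.card_insert_of_notMem h] at h1
  omega

theorem outC_card (hV : RB c V R) (hx : x ∈ En c V R) : (OutC c V x).card ≤ R := by
  obtain ⟨_, y, I, hp, hI⟩ := mem_En.mp hx
  rw [← hI]
  apply Finset.card_le_card
  intro a ha
  rw [mem_OutC] at ha
  obtain ⟨z, hz, hxz, rfl⟩ := ha
  exact out_of_end hV hp hI hz hxz

theorem inC_card (hV : RB c V R) (hx : x ∈ St c V R) : (InC c V x).card ≤ R := by
  obtain ⟨_, y, I, hp, hI⟩ := mem_St.mp hx
  rw [← hI]
  apply Finset.card_le_card
  intro a ha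
  rw [mem_InC] at ha
  obtain ⟨z, hz, hxz, rfl⟩ := ha
  exact in_of_start hV hp hI hz hxz

/-- ends of paths using almost all colours of `D` -/
theorem VD_card {q f : ℕ} {Y : Finset ℕ} (hL : Lev c V l lam) (hV : RB c V R) (hY : Y ⊆ V)
    (D : Finset ℕ) (hD : ∀ x ∈ Y, ∃ y I, P c V y x I ∧ I ⊆ D ∧ D.card ≤ I.card + q)
    (hf : ∀ U ⊆ V, RB c U (R - D.card + q) → U.card ≤ f) : Y.card ≤ l ^ D.card * f := by
  apply K0 (hL.sub hY)
  intro B' hB' hF
  apply hf B' (hB'.trans hY)
  intro u v J hp
  obtain ⟨y, I, h1, h2, h3⟩ := hD u (hB' hp.left_mem)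
  have h4 : Disjoint I J := (hp.disj_of_free hF).symm.mono_left h2
  have h5 := hV.two h1 (hp.mono (hB'.trans hY)) h4
  omega

/-- starts of paths using almost all colours of `D` -/
theorem VD_card' {q f : ℕ} {Y : Finset ℕ} (hL : Lev c V l lam) (hV : RB c V R) (hY : Y ⊆ V)
    (D : Finset ℕ) (hD : ∀ x ∈ Y, ∃ y I, P c V x y I ∧ I ⊆ D ∧ D.card ≤ I.card + q)
    (hf : ∀ U ⊆ V, RB c U (R - D.card + q) → U.card ≤ f) : Y.card ≤ l ^ D.card * f := by
  apply K0 (hL.sub hY)
  intro B' hB' hF
  apply hf B' (hB'.trans hY)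
  intro u v J hp
  obtain ⟨y, I, h1, h2, h3⟩ := hD v (hB' hp.right_mem)
  have h4 : Disjoint J I := (hp.disj_of_free hF).mono_right h2
  have h5 := hV.two (hp.mono (hB'.trans hY)) h1 h4
  omega

/-- the `a`-out-neighbours of `v` -/
def Nb (c : ℕ → ℕ → ℕ) (V : Finset ℕ) (v a : ℕ) : Finset ℕ := V.filter (fun w => v < w ∧ c v w = a)

/-- the `a`-in-neighbours of `w` -/
def Nm (c : ℕ → ℕ → ℕ) (V : Finset ℕ) (w a : ℕ) : Finset ℕ := V.filter (fun v => v < w ∧ c v w = a)

theorem mem_Nb {v a w : ℕ} : w ∈ Nb c V v a ↔ w ∈ V ∧ v < w ∧ c v w = a := by simp [Nb]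

theorem mem_Nm {v a w : ℕ} : v ∈ Nm c V w a ↔ v ∈ V ∧ v < w ∧ c v w = a := by simp [Nm]

/-- if a long path to `v` avoids `a` then there are few `a`-out-neighbours -/
theorem Nb_card {v a f : ℕ} (hL : Lev c V l lam) (hV : RB c V R) (hp : P c V y v I) (ha : a ∉ I)
    (hf : ∀ U ⊆ V, RB c U (R - (I.card + 1)) → U.card ≤ f) :
    (Nb c V v a).card ≤ l ^ (I.card + 1) * f := by
  have h1 : (insert a I).card = I.card + 1 := Finset.card_insert_of_notMem ha
  have := VD_card (q := 0) hL hV (Y := Nb c V v a) (Finset.filter_subset _ _) (insert a I)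
    (by
      intro w hw
      obtain ⟨h2, h3, h4⟩ := mem_Nb.mp hw
      refine ⟨y, insert (c v w) I, P.snoc hp h3 h2 (by rw [h4]; exact ha), by rw [h4],
        by rw [h4]; omega⟩)
    (by rw [h1]; simpa using hf)
  rwa [h1] at this

theorem Nm_card {w a f : ℕ} (hL : Lev c V l lam) (hV : RB c V R) (hp : P c V w y I) (ha : a ∉ I)
    (hf : ∀ U ⊆ V, RB c U (R - (I.card + 1)) → U.card ≤ f) :
    (Nm c V w a).card ≤ l ^ (I.card + 1) * f := by
  have h1 : (insert a I).card = I.card + 1 := Finset.card_insert_of_notMem ha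
  have := VD_card' (q := 0) hL hV (Y := Nm c V w a) (Finset.filter_subset _ _) (insert a I)
    (by
      intro v hv
      obtain ⟨h2, h3, h4⟩ := mem_Nm.mp hv
      refine ⟨y, insert (c v w) I, P.cons h2 h3 hp (by rw [h4]; exact ha), by rw [h4],
        by rw [h4]; omega⟩)
    (by rw [h1]; simpa using hf)
  rwa [h1] at this

end Pool.Agent.TH195.FR
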